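import Pool.Agent.J4.H25.Cog

/-!
# The minimum size of a largest odd induced subgraph of a cograph without isolated vertices

For every `n ≥ 2` the minimum of `mos(G)` over all cographs `G` on `n` vertices without isolated
vertices is `2 ⌈n / 6⌉`. The minimum is attained by a disjoint union of `⌈n / 6⌉` induced subgraphs
of `K_{2,2,2}`. For the lower bound, a largest odd induced subgraph of a graph which admits a join
has at least `(n - 2) / 2` vertices by Gallai's partition theorem.
-/

set_option autoImplicit false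

namespace Pool.Agent.Results.MP_007251_co.CographOddSize

open Finset Pool.Agent.J4.H25

/-- All vertices of `H` have odd degree. The empty graph is odd. -/
def OddGraph {W : Type} (H : SimpleGraph W) : Prop := ∀ v : W, Odd (H.neighborSet v).ncard

/-- The largest number of vertices of an odd induced subgraph of `G`. -/
noncomputable def mos {n : ℕ} (G : SimpleGraph (Fin n)) : ℕ :=
  sSup {k : ℕ | ∃ S : Set (Fin n), OddGraph (G.induce S) ∧ S.ncard = k}

/-- `G` is a cograph: it has no induced path on four vertices. -/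
def Cograph {n : ℕ} (G : SimpleGraph (Fin n)) : Prop :=
  ¬ (SimpleGraph.pathGraph 4).IsIndContained G

/-- The values of `mos` at the cographs on `n` vertices without isolated vertices. -/
def values (n : ℕ) : Set ℕ :=
  {k : ℕ | ∃ G : SimpleGraph (Fin n), Cograph G ∧ (∀ v, ∃ w, G.Adj v w) ∧ mos G = k}

theorem oddGraph_iff {n : ℕ} (G : SimpleGraph (Fin n)) (S : Finset (Fin n)) :
    OddGraph (G.induce (↑S : Set (Fin n))) ↔ OddSet G S := by
  classical
  have key : ∀ v (hv : v ∈ S), ((G.induce (↑S : Set (Fin n))).neighborSet ⟨v, hv⟩).ncard =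
      (S.filter fun w => G.Adj v w).card := by
    intro v hv
    rw [← Set.ncard_coe_finset, ← Set.ncard_image_of_injective _ Subtype.val_injective]
    congr 1
    ext w
    simp only [Set.mem_image, SimpleGraph.mem_neighborSet, SimpleGraph.comap_adj,
      Function.Embedding.subtype_apply, Subtype.exists, exists_and_right, exists_eq_right,
      mem_coe, mem_filter]
    constructor
    · rintro ⟨h1, h2⟩
      exact ⟨h1, h2⟩
    · rintro ⟨h1, h2⟩
      exact ⟨h1, h2⟩
  constructor
  · intro h v hv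
    have := h ⟨v, hv⟩
    rw [key v hv] at this
    convert this
  · rintro h ⟨v, hv⟩
    have h1 := h v hv
    have h2 := key v hv
    rw [h2]
    convert h1

theorem mos_bdd {n : ℕ} (G : SimpleGraph (Fin n)) :
    BddAbove {k : ℕ | ∃ S : Set (Fin n), OddGraph (G.induce S) ∧ S.ncard = k} := by
  refine ⟨n, ?_⟩
  rintro k ⟨S, _, rfl⟩
  have := Set.ncard_le_card S
  rwa [Nat.card_eq_fintype_card, Fintype.card_fin] at this

theorem le_mos {n : ℕ} {G : SimpleGraph (Fin n)} {T : Finset (Fin n)} (h : OddSet G T) :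
    T.card ≤ mos G := by
  refine le_csSup (mos_bdd G) ⟨(↑T : Set (Fin n)), (oddGraph_iff G T).2 h, ?_⟩
  rw [Set.ncard_coe_finset]

theorem exists_mos {n : ℕ} (G : SimpleGraph (Fin n)) :
    ∃ T : Finset (Fin n), OddSet G T ∧ T.card = mos G := by
  classical
  have h0 : {k : ℕ | ∃ S : Set (Fin n), OddGraph (G.induce S) ∧ S.ncard = k}.Nonempty := by
    refine ⟨0, ∅, ?_, by simp⟩
    rintro ⟨v, hv⟩
    exact absurd hv (Set.notMem_empty v)
  obtain ⟨S, h1, h2⟩ := Nat.sSup_mem h0 (mos_bdd G)
  refine ⟨S.toFinset, ?_, ?_⟩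
  · rw [← oddGraph_iff, Set.coe_toFinset]
    exact h1
  · rw [← Set.ncard_eq_toFinset_card']
    exact h2

theorem noP4_of {n : ℕ} {G : SimpleGraph (Fin n)} (h : Cograph G) (U : Finset (Fin n)) :
    NoP4 G U := by
  intro a _ b _ c _ d _ hab hbc hcd hac had hbd nac nbd
  apply h
  have nad : a ≠ d := by
    rintro rfl
    exact hac hcd.symm
  refine ⟨⟨⟨![a, b, c, d], ?_⟩, ?_⟩⟩
  · intro i j hij
    fin_cases i <;> fin_cases j <;> simp at hij ⊢
    · exact hab.ne hij
    · exact nac hij
    · exact nad hij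
    · exact hab.ne hij.symm
    · exact hbc.ne hij
    · exact nbd hij
    · exact nac hij.symm
    · exact hbc.ne hij.symm
    · exact hcd.ne hij
    · exact nad hij.symm
    · exact nbd hij.symm
    · exact hcd.ne hij.symm
  · intro i j
    change G.Adj (![a, b, c, d] i) (![a, b, c, d] j) ↔ (SimpleGraph.pathGraph 4).Adj i j
    have hba := hab.symm
    have hcb := hbc.symm
    have hdc := hcd.symm
    have hca : ¬ G.Adj c a := fun e => hac e.symm
    have hda : ¬ G.Adj d a := fun e => had e.symm
    have hdb : ¬ G.Adj d b := fun e => hbd e.symm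
    fin_cases i <;> fin_cases j <;>
      simp [SimpleGraph.pathGraph_adj, hab, hbc, hcd, hac, had, hbd, hba, hcb, hdc, hca, hda, hdb]

theorem cograph_ext (n q : ℕ) : Cograph (ext n q) := by
  rintro ⟨f⟩
  have key : ∀ i j : Fin 4, (ext n q).Adj (f i) (f j) ↔ (SimpleGraph.pathGraph 4).Adj i j :=
    fun i j => f.map_adj_iff
  refine ext_noP4 n q (f 0) (f 1) (f 2) (f 3) ?_ ?_ ?_ ?_ ?_ ?_ <;>
    rw [key, SimpleGraph.pathGraph_adj] <;> decide

/-- **The answer to Q1.** For every `n ≥ 2` the minimum of `mos(G)` over all cographs `G` on `n`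
vertices without isolated vertices is `2 ⌈n / 6⌉`. -/
theorem result (n : ℕ) (hn : 2 ≤ n) : IsLeast (values n) (2 * ⌈(n : ℚ) / 6⌉₊) := by
  have hceil : ⌈(n : ℚ) / 6⌉₊ = (n + 5) / 6 := by
    have h1 : (n + 5) / 6 = (n + 5) / 6 := rfl
    apply le_antisymm
    · rw [Nat.ceil_le, div_le_iff₀ (by norm_num)]
      have : n ≤ ((n + 5) / 6) * 6 := by omega
      exact_mod_cast this
    · have h2 := Nat.le_ceil ((n : ℚ) / 6)
      rw [div_le_iff₀ (by norm_num)] at h2
      have h3 : n ≤ ⌈(n : ℚ) / 6⌉₊ * 6 := by exact_mod_cast h2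
      omega
  rw [hceil]
  obtain ⟨q, hq⟩ : ∃ q, q = (n + 5) / 6 := ⟨_, rfl⟩
  rw [← hq]
  have hq0 : 0 < q := by omega
  have low : ∀ G : SimpleGraph (Fin n), Cograph G → (∀ v, ∃ w, G.Adj v w) → 2 * q ≤ mos G := by
    intro G hG hiso
    obtain ⟨T, _, hT, hc⟩ := lower (G := G) n univ (by simp) (noP4_of hG univ)
      (fun v _ => by
        obtain ⟨w, hw⟩ := hiso v
        exact ⟨w, mem_univ _, hw⟩)
    obtain ⟨t, ht⟩ := hT.even_card
    have h1 := le_mos hT
    rw [card_univ, Fintype.card_fin] at hc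
    omega
  constructor
  · refine ⟨ext n q, cograph_ext n q, ext_iso hq0 (by omega), ?_⟩
    apply le_antisymm
    · obtain ⟨T, hT, hc⟩ := exists_mos (ext n q)
      rw [← hc]
      exact ext_upper hq0 (by omega) hT
    · exact low _ (cograph_ext n q) (ext_iso hq0 (by omega))
  · rintro k ⟨G, h1, h2, rfl⟩
    exact low G h1 h2

end Pool.Agent.Results.MP_007251_co.CographOddSize
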